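import Mathlib
import Pool.Agent.Helper9.CLFMany

/-!
# Countably infinite complete locally finite groups (MP_a8364e_al)

There are continuum many pairwise non-isomorphic countably infinite locally finite groups `G` with
trivial centre all of whose automorphisms are inner.
-/

namespace Pool.Agent.Results.MP_a8364e_al.Full

theorem result : ∃ (G : Set ℕ → Type) (_ : ∀ A, Group (G A)),
    (∀ A, Countable (G A) ∧ Infinite (G A) ∧ (∀ H : Subgroup (G A), H.FG → Finite H) ∧
      Subgroup.center (G A) = ⊥ ∧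
      (∀ φ : G A ≃* G A, ∃ g : G A, ∀ x, φ x = g * x * g⁻¹) ∧
      Function.Bijective (MulAut.conj : G A →* MulAut (G A))) ∧
    ∀ A B, A ≠ B → IsEmpty (G A ≃* G B) := by
  obtain ⟨G, instG, h, hiso⟩ := Helper9.CLFMany.many
  refine ⟨G, instG, fun A => ⟨(h A).1, (h A).2.1, ?_, (h A).2.2.2.1, ?_, ?_, ?_⟩, ?_⟩
  · rintro H ⟨s, rfl⟩
    exact (h A).2.2.1 s
  · intro φ
    obtain ⟨g, hg⟩ := (h A).2.2.2.2 φ
    refine ⟨g, fun x => ?_⟩
    rw [hg]
    rfl
  · rw [injective_iff_map_eq_one]
    intro g hg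
    have h1 : g ∈ Subgroup.center (G A) := by
      rw [Subgroup.mem_center_iff]
      intro x
      have h2 := congrArg (fun φ : MulAut (G A) => φ x) hg
      simp only [MulAut.conj_apply, MulAut.one_apply] at h2
      rw [mul_inv_eq_iff_eq_mul] at h2
      exact h2.symm
    rw [(h A).2.2.2.1, Subgroup.mem_bot] at h1
    exact h1
  · intro φ
    obtain ⟨g, hg⟩ := (h A).2.2.2.2 φ
    exact ⟨g, hg.symm⟩
  · intro A B hAB
    exact ⟨fun φ => hAB (hiso A B ⟨φ⟩)⟩

end Pool.Agent.Results.MP_a8364e_al.Full
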